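import Pool.Agent.W662.CB.Defs

set_option autoImplicit false

open MeasureTheory Filter Topology Complex
open scoped InnerProductSpace ENNReal

namespace Pool.Agent.W662.CB

noncomputable section

variable {H : Type} [NormedAddCommGroup H] [InnerProductSpace ℂ H] [CompleteSpace H]
variable {K : Type} [NormedAddCommGroup K] [InnerProductSpace ℂ K] [CompleteSpace K]

/-- The generators of the continuous core, on a Hilbert space `K` of functions `ℝ → H` (`J` sends
an element of `K` to its function): the operators `f(s) ↦ σ_{-s}(x) f(s)`, `x ∈ M`, and the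
translations `f(s) ↦ f(s - t)`. -/
def coreGens (J : K → ℝ → H) (M : VonNeumannAlgebra H) (U : ℝ → H →L[ℂ] H) : Set (K →L[ℂ] K) :=
  {T | (∃ x : H →L[ℂ] H, x ∈ M ∧ ∀ f : K, J (T f) =ᵐ[volume] fun s => sgm U (-s) x (J f s)) ∨
    ∃ t : ℝ, ∀ f : K, J (T f) =ᵐ[volume] fun s => J f (s - t)}

/-- The von Neumann algebra generated by a set of operators, as a set: the commutant of the
operators that commute with `S` and with `S^*`. -/
def dcomm (S : Set (K →L[ℂ] K)) : Set (K →L[ℂ] K) :=
  {T | ∀ R : K →L[ℂ] K, (∀ A : K →L[ℂ] K, A ∈ S → R * A = A * R ∧ R * star A = star A * R) →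
    R * T = T * R}

/-- `A' ∩ B` consists of the scalars. -/
def IrrIn (A B : Set (K →L[ℂ] K)) : Prop :=
  ∀ T : K →L[ℂ] K, T ∈ B → (∀ S : K →L[ℂ] K, S ∈ A → S * T = T * S) →
    ∃ c : ℂ, T = c • (1 : K →L[ℂ] K)

theorem mem_vnGen_iff (S : Set (K →L[ℂ] K)) (T : K →L[ℂ] K) : T ∈ vnGen S ↔ T ∈ dcomm S := by
  have e1 : ∀ R : K →L[ℂ] K, R ∈ StarSubalgebra.centralizer ℂ S ↔
      ∀ A : K →L[ℂ] K, A ∈ S → R * A = A * R ∧ R * star A = star A * R := by
    intro R
    rw [StarSubalgebra.mem_centralizer_iff]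
    constructor
    · intro h A hA
      exact ⟨(h A hA).1.symm, (h A hA).2.symm⟩
    · intro h A hA
      exact ⟨(h A hA).1.symm, (h A hA).2.symm⟩
  have e2 : T ∈ vnGen S ↔ T ∈ StarSubalgebra.centralizer ℂ
      ((StarSubalgebra.centralizer ℂ S : Set (K →L[ℂ] K))) := Iff.rfl
  rw [e2, StarSubalgebra.mem_centralizer_iff]
  constructor
  · intro h R hR
    exact (h R ((e1 R).2 hR)).1
  · intro h R hR
    refine ⟨h R ((e1 R).1 hR), ?_⟩
    exact h (star R) ((e1 (star R)).1 (star_mem hR))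

theorem coreIrr_of (N M : VonNeumannAlgebra H) (U : ℝ → H →L[ℂ] H)
    (h : IrrIn (dcomm (coreGens (fun f : Lp H 2 (volume : Measure ℝ) => (f : ℝ → H)) N U))
      (dcomm (coreGens (fun f : Lp H 2 (volume : Measure ℝ) => (f : ℝ → H)) M U))) :
    CoreIrreducible N M U := by
  have e : ∀ P : VonNeumannAlgebra H, coreGen P U =
      coreGens (fun f : Lp H 2 (volume : Measure ℝ) => (f : ℝ → H)) P U := fun P => rfl
  intro T hT hS
  refine h T ?_ ?_
  · rw [← e]
    exact (mem_vnGen_iff _ _).1 hT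
  · intro S hS'
    rw [← e] at hS'
    exact hS S ((mem_vnGen_iff _ _).2 hS')

end

end Pool.Agent.W662.CB
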