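import Pool.Agent.W662.CB.Defs

set_option autoImplicit false

open MeasureTheory Filter Topology Complex
open scoped InnerProductSpace ENNReal

namespace Pool.Agent.W662.CB

noncomputable section

/-! ### Modular theory on `H` -/

/-- `a'` plays the role of `σ_{-i}(a)`. -/
def KM {H : Type} [NormedAddCommGroup H] [InnerProductSpace ℂ H] [CompleteSpace H]
    (M : VonNeumannAlgebra H) (ξ : H) (a a' : H →L[ℂ] H) : Prop :=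
  ∀ b : H →L[ℂ] H, b ∈ M → vst ξ (a * b) = vst ξ (b * a')

/-- entire extension of `t ↦ σ_t(F 0)` -/
structure IsAn {H : Type} [NormedAddCommGroup H] [InnerProductSpace ℂ H] [CompleteSpace H]
    (M : VonNeumannAlgebra H) (U : ℝ → H →L[ℂ] H) (F : ℂ → H →L[ℂ] H) : Prop where
  mem : ∀ z : ℂ, F z ∈ M
  diff : ∀ v : H, Differentiable ℂ fun z : ℂ => F z v
  diff' : ∀ v : H, Differentiable ℂ fun z : ℂ => star (F (starRingEnd ℂ z)) v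
  ext : ∀ t : ℝ, F t = sgm U t (F 0)
  bdd : ∀ R : ℝ, ∃ C : ℝ, ∀ z : ℂ, |z.im| ≤ R → ‖F z‖ ≤ C

/-- standing assumptions -/
structure Std {H : Type} [NormedAddCommGroup H] [InnerProductSpace ℂ H] [CompleteSpace H]
    (M N : VonNeumannAlgebra H) (ξ : H) (U : ℝ → H →L[ℂ] H) : Prop where
  le : ∀ x : H →L[ℂ] H, x ∈ N → x ∈ M
  unit : ‖ξ‖ = 1
  sep : IsSeparating M ξ
  modular : IsModular M ξ U
  inv : ∀ (t : ℝ) (x : H →L[ℂ] H), x ∈ N → sgm U t x ∈ N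

def S_A1 : Prop := ∀ G : ℂ → ℂ, ContinuousOn G {z : ℂ | 0 ≤ z.im ∧ z.im ≤ 1} →
  DifferentiableOn ℂ G {z : ℂ | 0 < z.im ∧ z.im < 1} →
  (∃ C : ℝ, ∀ z : ℂ, 0 ≤ z.im → z.im ≤ 1 → ‖G z‖ ≤ C) →
  (∀ t : ℝ, G t = 0) → ∀ t : ℝ, G (t + I) = 0

def S_A2a : Prop := ∀ (H : Type) [NormedAddCommGroup H] [InnerProductSpace ℂ H] [CompleteSpace H]
  (M : VonNeumannAlgebra H) (ξ : H) (U : ℝ → H →L[ℂ] H), IsModular M ξ U →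
  ∀ F : ℂ → H →L[ℂ] H, IsAn M U F → ∀ (t : ℝ) (z : ℂ), F (t + z) = sgm U t (F z)

def S_A2 : Prop := ∀ (H : Type) [NormedAddCommGroup H] [InnerProductSpace ℂ H] [CompleteSpace H]
  (M : VonNeumannAlgebra H) (ξ : H) (U : ℝ → H →L[ℂ] H), IsModular M ξ U →
  ∀ F : ℂ → H →L[ℂ] H, IsAn M U F → ∀ z : ℂ, KM M ξ (F z) (F (z - I))

def S_A3 : Prop := ∀ (H : Type) [NormedAddCommGroup H] [InnerProductSpace ℂ H] [CompleteSpace H]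
  (M : VonNeumannAlgebra H) (ξ : H) (U : ℝ → H →L[ℂ] H), IsModular M ξ U →
  ∀ x : H →L[ℂ] H, x ∈ M → (∀ t : ℝ, sgm U t x = x) → KM M ξ x x

def S_A4 : Prop := ∀ (H : Type) [NormedAddCommGroup H] [InnerProductSpace ℂ H] [CompleteSpace H]
  (M : VonNeumannAlgebra H) (ξ : H) (U : ℝ → H →L[ℂ] H), IsModular M ξ U →
  ∀ x : H →L[ℂ] H, x ∈ M → (∀ t : ℝ, sgm U t x = x) →
  ∀ c : H →L[ℂ] H, c ∈ M → ‖c (x ξ)‖ ≤ ‖x‖ * ‖c ξ‖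

def S_A5 : Prop := ∀ (H : Type) [NormedAddCommGroup H] [InnerProductSpace ℂ H] [CompleteSpace H]
  (M : VonNeumannAlgebra H) (ξ : H), ‖ξ‖ = 1 →
  (∀ a : H →L[ℂ] H, 0 ≤ commNorm M ξ a) ∧
  (∀ a x : H →L[ℂ] H, x ∈ M → ‖vst ξ (x * a) - vst ξ (a * x)‖ ≤ ‖x‖ * commNorm M ξ a) ∧
  (∀ a a' : H →L[ℂ] H, KM M ξ a a' → commNorm M ξ a ≤ ‖(a - a') ξ‖) ∧
  (∀ (a : H →L[ℂ] H) (C : ℝ), 0 ≤ C →
    (∀ x : H →L[ℂ] H, x ∈ M → ‖x‖ ≤ 1 → ‖vst ξ (x * a) - vst ξ (a * x)‖ ≤ C) →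
    commNorm M ξ a ≤ C)

def S_A6 : Prop := ∀ (H : Type) [NormedAddCommGroup H] [InnerProductSpace ℂ H] [CompleteSpace H]
  (M N : VonNeumannAlgebra H) (ξ : H), ‖ξ‖ = 1 → (∀ x : H →L[ℂ] H, x ∈ N → x ∈ M) →
  ∀ (a : H →L[ℂ] H) (L : ℝ), a ∈ N → 0 < L → ∃ a' : H →L[ℂ] H, a' ∈ N ∧ ‖a'‖ ≤ L ∧
  commNorm M ξ a' ≤ 2 * commNorm M ξ a + commNorm M ξ (star a) ∧
  ∀ v : H, ‖(a - a') v‖ ≤ ‖(star a * a) v‖ / (2 * L)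

def S_A7 : Prop := ∀ (H : Type) [NormedAddCommGroup H] [InnerProductSpace ℂ H] [CompleteSpace H]
  (M N : VonNeumannAlgebra H) (ξ : H), ‖ξ‖ = 1 → (∀ x : H →L[ℂ] H, x ∈ N → x ∈ M) →
  ∀ x : H →L[ℂ] H, x ∈ relBicentralizer N M ξ → ∀ L ε : ℝ, 0 < L → 0 < ε →
  ∃ A : ℝ, 0 ≤ A ∧ ∀ a : H →L[ℂ] H, a ∈ N → ‖a‖ ≤ L →
    ‖(a * x - x * a) ξ‖ ^ 2 ≤ ε + A * commNorm M ξ a ^ 2

/-- existence of analytic elements -/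
def S_A8a : Prop := ∀ (H : Type) [NormedAddCommGroup H] [InnerProductSpace ℂ H] [CompleteSpace H]
  (M : VonNeumannAlgebra H) (ξ : H) (U : ℝ → H →L[ℂ] H), IsModular M ξ U →
  ∀ a : H →L[ℂ] H, a ∈ M → ∃ F : ℕ → ℂ → H →L[ℂ] H, (∀ n, IsAn M U (F n)) ∧
    ∀ v : H, Tendsto (fun n => F n 0 v) atTop (𝓝 (a v))

/-- the projection onto the closure of `N ξ` and the conditional expectation -/
def S_A8b : Prop := ∀ (H : Type) [NormedAddCommGroup H] [InnerProductSpace ℂ H] [CompleteSpace H]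
  (M N : VonNeumannAlgebra H) (ξ : H) (E : (H →L[ℂ] H) → (H →L[ℂ] H)),
  (∀ x : H →L[ℂ] H, x ∈ N → x ∈ M) → IsCyclic M ξ → IsCondExp M N E →
  (∀ x : H →L[ℂ] H, x ∈ M → vst ξ (E x) = vst ξ x) →
  ∃ P : H →L[ℂ] H, star P = P ∧ ∀ x : H →L[ℂ] H, x ∈ M → P (x ξ) = E x ξ

/-- the pairing is `i`-periodic, hence constant (Liouville) -/
def S_A8c : Prop := ∀ (H : Type) [NormedAddCommGroup H] [InnerProductSpace ℂ H] [CompleteSpace H]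
  (M N : VonNeumannAlgebra H) (ξ : H) (U : ℝ → H →L[ℂ] H) (E : (H →L[ℂ] H) → (H →L[ℂ] H)),
  (∀ x : H →L[ℂ] H, x ∈ N → x ∈ M) → IsModular M ξ U → IsCondExp M N E →
  (∀ x : H →L[ℂ] H, x ∈ M → vst ξ (E x) = vst ξ x) →
  ∀ P : H →L[ℂ] H, star P = P → (∀ x : H →L[ℂ] H, x ∈ M → P (x ξ) = E x ξ) →
  ∀ F G : ℂ → H →L[ℂ] H, IsAn M U F → IsAn M U G → ∀ t : ℝ,
    ⟪G t ξ, P (F t ξ)⟫_ℂ = ⟪G 0 ξ, P (F 0 ξ)⟫_ℂ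

/-- Takesaki: `σ_t(N) ⊂ N` -/
def S_A8 : Prop := ∀ (H : Type) [NormedAddCommGroup H] [InnerProductSpace ℂ H] [CompleteSpace H]
  (M N : VonNeumannAlgebra H) (ξ : H) (U : ℝ → H →L[ℂ] H) (E : (H →L[ℂ] H) → (H →L[ℂ] H)),
  (∀ x : H →L[ℂ] H, x ∈ N → x ∈ M) → IsCyclic M ξ → IsSeparating M ξ → IsModular M ξ U →
  IsCondExp M N E → (∀ x : H →L[ℂ] H, x ∈ M → vst ξ (E x) = vst ξ x) →
  ∀ (t : ℝ) (x : H →L[ℂ] H), x ∈ N → sgm U t x ∈ N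

/-! ### The box -/

/-- The abstract properties of `L²([0, W]; H) ⊂ K = L²(ℝ; H)` (`T = 1 / W`):
`E z` is the multiplication by `e^{2πizw}` on `[0, W]`, `J v = W^{-1/2} 1_{[0,W]} ⊗ v`,
`κ y = y ⊗ 1`, `V t = U t ⊗ e^{2πitw}`. -/
structure BoxP {H K : Type} [NormedAddCommGroup H] [InnerProductSpace ℂ H] [CompleteSpace H]
    [NormedAddCommGroup K] [InnerProductSpace ℂ K] [CompleteSpace K]
    (U : ℝ → H →L[ℂ] H) (κ : (H →L[ℂ] H) →⋆ₐ[ℂ] (K →L[ℂ] K)) (V : ℝ → K →L[ℂ] K)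
    (J : H →L[ℂ] K) (E : ℂ → K →L[ℂ] K) (T δ : ℝ) : Prop where
  V_zero : V 0 = 1
  V_add : ∀ s t : ℝ, V (s + t) = V s * V t
  V_star : ∀ t : ℝ, star (V t) = V (-t)
  E_add : ∀ z w : ℂ, E (z + w) = E z * E w
  E_star : ∀ z : ℂ, star (E z) = E (-(starRingEnd ℂ z))
  E_diff : Differentiable ℂ E
  V_E : ∀ (t : ℝ) (z : ℂ), V t * E z = E z * V t
  κ_E : ∀ (y : H →L[ℂ] H) (z : ℂ), κ y * E z = E z * κ y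
  J_iso : ∀ v : H, ContinuousLinearMap.adjoint J (J v) = v
  E_J : ∀ v : H, E 0 (J v) = J v
  κ_J : ∀ (y : H →L[ℂ] H) (v : H), κ y (J v) = J (y v)
  V_J : ∀ (t : ℝ) (v : H), V t (J v) = E t (J (U t v))
  orth : ∀ (m : ℤ) (v : H), m ≠ 0 →
    ContinuousLinearMap.adjoint J (E (((m : ℝ) * T : ℝ) : ℂ) (J v)) = 0
  compl : ∀ u : K, HasSum (fun m : ℤ => E (((m : ℝ) * T : ℝ) : ℂ)
    (J (ContinuousLinearMap.adjoint J (E ((-((m : ℝ) * T) : ℝ) : ℂ) u)))) (E 0 u)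
  nE1 : ‖E (-I) - E 0‖ ≤ δ
  nE2 : ‖E I - E 0‖ ≤ δ
  nE3 : ‖E (-I / 2) - E 0‖ ≤ δ
  nE4 : ‖E (I / 2) - E 0‖ ≤ δ
  pos : 0 < T
  δ_nonneg : 0 ≤ δ
  δ_le : δ ≤ 1

/-- `X` commutes with `V` and with `κ(M')` -/
def Aff {H K : Type} [NormedAddCommGroup H] [InnerProductSpace ℂ H] [CompleteSpace H]
    [NormedAddCommGroup K] [InnerProductSpace ℂ K] [CompleteSpace K]
    (M : VonNeumannAlgebra H) (κ : (H →L[ℂ] H) →⋆ₐ[ℂ] (K →L[ℂ] K)) (V : ℝ → K →L[ℂ] K)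
    (X : K →L[ℂ] K) : Prop :=
  (∀ t : ℝ, X * V t = V t * X) ∧ ∀ y : H →L[ℂ] H, y ∈ M.commutant → X * κ y = κ y * X

/-- the slice `J^* X J` -/
def sl {H K : Type} [NormedAddCommGroup H] [InnerProductSpace ℂ H] [CompleteSpace H]
    [NormedAddCommGroup K] [InnerProductSpace ℂ K] [CompleteSpace K]
    (J : H →L[ℂ] K) (X : K →L[ℂ] K) : H →L[ℂ] H :=
  (ContinuousLinearMap.adjoint J) ∘L X ∘L J

/-- basic identities -/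
def S_B1 : Prop := ∀ (H K : Type) [NormedAddCommGroup H] [InnerProductSpace ℂ H] [CompleteSpace H]
  [NormedAddCommGroup K] [InnerProductSpace ℂ K] [CompleteSpace K]
  (M : VonNeumannAlgebra H) (ξ : H)
  (U : ℝ → H →L[ℂ] H) (κ : (H →L[ℂ] H) →⋆ₐ[ℂ] (K →L[ℂ] K)) (V : ℝ → K →L[ℂ] K)
  (J : H →L[ℂ] K) (E : ℂ → K →L[ℂ] K) (T δ : ℝ), IsModular M ξ U → BoxP U κ V J E T δ →
  (∀ t : ℝ, V t (J ξ) = E t (J ξ)) ∧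
  (∀ (t : ℝ) (v : K), U t (ContinuousLinearMap.adjoint J v) =
    ContinuousLinearMap.adjoint J (V t (E ((-t : ℝ) : ℂ) v))) ∧
  (∀ (t : ℝ) (v : H), J (U t v) = E ((-t : ℝ) : ℂ) (V t (J v))) ∧
  (∀ t : ℝ, ‖E t‖ ≤ 1) ∧ (∀ v : H, ‖J v‖ = ‖v‖) ∧ (∀ v : K, ‖ContinuousLinearMap.adjoint J v‖ ≤ ‖v‖) ∧
  (∀ v : K, ContinuousLinearMap.adjoint J (E 0 v) = ContinuousLinearMap.adjoint J v) ∧
  (∀ (y : H →L[ℂ] H) (v : K),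
    y (ContinuousLinearMap.adjoint J v) = ContinuousLinearMap.adjoint J (κ y v)) ∧
  (∀ R : ℝ, ∃ C : ℝ, ∀ z : ℂ, |z.im| ≤ R → ‖E z‖ ≤ C)

/-- slices belong to `M` -/
def S_B2 : Prop := ∀ (H K : Type) [NormedAddCommGroup H] [InnerProductSpace ℂ H] [CompleteSpace H]
  [NormedAddCommGroup K] [InnerProductSpace ℂ K] [CompleteSpace K]
  (M : VonNeumannAlgebra H)
  (U : ℝ → H →L[ℂ] H) (κ : (H →L[ℂ] H) →⋆ₐ[ℂ] (K →L[ℂ] K)) (V : ℝ → K →L[ℂ] K)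
  (J : H →L[ℂ] K) (E : ℂ → K →L[ℂ] K) (T δ : ℝ), BoxP U κ V J E T δ →
  ∀ X : K →L[ℂ] K, Aff M κ V X → sl J X ∈ M ∧ Aff M κ V (star X) ∧
    ∀ z w : ℂ, Aff M κ V (E z * X * E w)

/-- slices are analytic -/
def S_B3 : Prop := ∀ (H K : Type) [NormedAddCommGroup H] [InnerProductSpace ℂ H] [CompleteSpace H]
  [NormedAddCommGroup K] [InnerProductSpace ℂ K] [CompleteSpace K]
  (M : VonNeumannAlgebra H) (ξ : H)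
  (U : ℝ → H →L[ℂ] H) (κ : (H →L[ℂ] H) →⋆ₐ[ℂ] (K →L[ℂ] K)) (V : ℝ → K →L[ℂ] K)
  (J : H →L[ℂ] K) (E : ℂ → K →L[ℂ] K) (T δ : ℝ), IsModular M ξ U → BoxP U κ V J E T δ →
  ∀ X : K →L[ℂ] K, Aff M κ V X → IsAn M U (fun z : ℂ => sl J (E (-z) * X * E z)) ∧
    KM M ξ (sl J X) (sl J (E I * X * E (-I)))

/-- moving the multiplier -/
def S_B4 : Prop := ∀ (H K : Type) [NormedAddCommGroup H] [InnerProductSpace ℂ H] [CompleteSpace H]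
  [NormedAddCommGroup K] [InnerProductSpace ℂ K] [CompleteSpace K]
  (M : VonNeumannAlgebra H) (ξ : H)
  (U : ℝ → H →L[ℂ] H) (κ : (H →L[ℂ] H) →⋆ₐ[ℂ] (K →L[ℂ] K)) (V : ℝ → K →L[ℂ] K)
  (J : H →L[ℂ] K) (E : ℂ → K →L[ℂ] K) (T δ : ℝ), IsModular M ξ U → BoxP U κ V J E T δ →
  ∀ Q : K →L[ℂ] K, (∀ t : ℝ, Q * V t = V t * Q) → E 0 * Q * E 0 = Q →
    ⟪E (-I / 2) (J ξ), Q (E (-I / 2) (J ξ))⟫_ℂ = ⟪J ξ, Q (E (-I) (J ξ))⟫_ℂ ∧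
    ⟪E (-I / 2) (J ξ), Q (E (-I / 2) (J ξ))⟫_ℂ = ⟪E (-I) (J ξ), Q (J ξ)⟫_ℂ

/-- the trace vector -/
def S_B5 : Prop := ∀ (H K : Type) [NormedAddCommGroup H] [InnerProductSpace ℂ H] [CompleteSpace H]
  [NormedAddCommGroup K] [InnerProductSpace ℂ K] [CompleteSpace K]
  (M : VonNeumannAlgebra H) (ξ : H)
  (U : ℝ → H →L[ℂ] H) (κ : (H →L[ℂ] H) →⋆ₐ[ℂ] (K →L[ℂ] K)) (V : ℝ → K →L[ℂ] K)
  (J : H →L[ℂ] K) (E : ℂ → K →L[ℂ] K) (T δ : ℝ), IsModular M ξ U → BoxP U κ V J E T δ →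
  ∀ Z : K →L[ℂ] K, Aff M κ V Z → E 0 * Z * E 0 = Z →
    ‖Z (E (-I / 2) (J ξ))‖ = ‖star Z (E (-I / 2) (J ξ))‖

/-- the trace vector is separating -/
def S_B6 : Prop := ∀ (H K : Type) [NormedAddCommGroup H] [InnerProductSpace ℂ H] [CompleteSpace H]
  [NormedAddCommGroup K] [InnerProductSpace ℂ K] [CompleteSpace K]
  (M : VonNeumannAlgebra H) (ξ : H)
  (U : ℝ → H →L[ℂ] H) (κ : (H →L[ℂ] H) →⋆ₐ[ℂ] (K →L[ℂ] K)) (V : ℝ → K →L[ℂ] K)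
  (J : H →L[ℂ] K) (E : ℂ → K →L[ℂ] K) (T δ : ℝ), IsModular M ξ U → IsSeparating M ξ →
  BoxP U κ V J E T δ →
  ∀ Z : K →L[ℂ] K, Aff M κ V Z → E 0 * Z * E 0 = Z → Z (E (-I / 2) (J ξ)) = 0 → Z = 0

/-- the coefficients `C_m = J^* E_{-mT} Y J` and their relatives -/
def cf {H K : Type} [NormedAddCommGroup H] [InnerProductSpace ℂ H] [CompleteSpace H]
    [NormedAddCommGroup K] [InnerProductSpace ℂ K] [CompleteSpace K]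
    (J : H →L[ℂ] K) (E : ℂ → K →L[ℂ] K) (T : ℝ) (Y : K →L[ℂ] K) (m : ℤ) : H →L[ℂ] H :=
  sl J (E ((-((m : ℝ) * T) : ℝ) : ℂ) * Y)

def S_B7 : Prop := ∀ (H K : Type) [NormedAddCommGroup H] [InnerProductSpace ℂ H] [CompleteSpace H]
  [NormedAddCommGroup K] [InnerProductSpace ℂ K] [CompleteSpace K]
  (M N : VonNeumannAlgebra H) (ξ : H)
  (U : ℝ → H →L[ℂ] H) (κ : (H →L[ℂ] H) →⋆ₐ[ℂ] (K →L[ℂ] K)) (V : ℝ → K →L[ℂ] K)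
  (J : H →L[ℂ] K) (E : ℂ → K →L[ℂ] K) (T δ : ℝ), Std M N ξ U → BoxP U κ V J E T δ →
  ∀ Y : K →L[ℂ] K, Aff N κ V Y → E 0 * Y * E 0 = Y → ‖Y‖ ≤ 1 →
  (∀ m : ℤ, cf J E T Y m ∈ N) ∧
  (∀ (F : Finset ℤ) (v : H), ∑ m ∈ F, ‖cf J E T Y m v‖ ^ 2 ≤ ‖v‖ ^ 2) ∧
  (∀ (F : Finset ℤ) (v : H), ∑ m ∈ F, ‖star (cf J E T Y m) (U ((m : ℝ) * T) v)‖ ^ 2 ≤ ‖v‖ ^ 2)

def S_B8 : Prop := ∀ (H K : Type) [NormedAddCommGroup H] [InnerProductSpace ℂ H] [CompleteSpace H]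
  [NormedAddCommGroup K] [InnerProductSpace ℂ K] [CompleteSpace K]
  (M N : VonNeumannAlgebra H) (ξ : H)
  (U : ℝ → H →L[ℂ] H) (κ : (H →L[ℂ] H) →⋆ₐ[ℂ] (K →L[ℂ] K)) (V : ℝ → K →L[ℂ] K)
  (J : H →L[ℂ] K) (E : ℂ → K →L[ℂ] K) (T δ : ℝ), Std M N ξ U → BoxP U κ V J E T δ →
  ∀ Y : K →L[ℂ] K, Aff N κ V Y → E 0 * Y * E 0 = Y → ‖Y‖ ≤ 1 →
  ∃ C1 C2 : ℤ → H →L[ℂ] H, (∀ m : ℤ, KM M ξ (cf J E T Y m) (C1 m)) ∧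
    (∀ m : ℤ, KM M ξ (star (cf J E T Y m)) (C2 m)) ∧
    (∀ F : Finset ℤ, ∑ m ∈ F, ‖(cf J E T Y m - C1 m) ξ‖ ^ 2 ≤ (3 * δ) ^ 2) ∧
    (∀ F : Finset ℤ, ∑ m ∈ F, ‖(star (cf J E T Y m) - C2 m) ξ‖ ^ 2 ≤ (3 * δ) ^ 2)

def S_B9 : Prop := ∀ (H K : Type) [NormedAddCommGroup H] [InnerProductSpace ℂ H] [CompleteSpace H]
  [NormedAddCommGroup K] [InnerProductSpace ℂ K] [CompleteSpace K] (ξ : H)
  (U : ℝ → H →L[ℂ] H) (κ : (H →L[ℂ] H) →⋆ₐ[ℂ] (K →L[ℂ] K)) (V : ℝ → K →L[ℂ] K)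
  (J : H →L[ℂ] K) (E : ℂ → K →L[ℂ] K) (T δ : ℝ), BoxP U κ V J E T δ →
  ∀ (Y : K →L[ℂ] K) (x : H →L[ℂ] H) (r : ℝ), E 0 * Y * E 0 = Y →
  (∀ F : Finset ℤ, ∑ m ∈ F, ‖(cf J E T Y m * x - x * cf J E T Y m) ξ‖ ^ 2 ≤ r) →
  ‖(Y * κ x - κ x * Y) (J ξ)‖ ^ 2 ≤ r

/-! ### Finite averages -/

/-- the average over a finite type -/
def av {α : Type} [Fintype α] (f : α → ℝ) : ℝ := (Fintype.card α : ℝ)⁻¹ * ∑ x, f x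

def S_C1 : Prop := ∀ (H : Type) [NormedAddCommGroup H] [InnerProductSpace ℂ H]
  (ι : Type) [Fintype ι] [DecidableEq ι] (v : ι → H),
  av (fun e : ι → Fin 4 => ‖∑ m, (I ^ (e m : ℕ)) • v m‖ ^ 2) = ∑ m, ‖v m‖ ^ 2

def S_C2 : Prop := ∀ (H : Type) [NormedAddCommGroup H] [InnerProductSpace ℂ H]
  (ι : Type) [Fintype ι] [DecidableEq ι] (w : ι → ι → H),
  av (fun e : ι → Fin 4 =>
      ‖∑ m, ∑ n, ((starRingEnd ℂ (I ^ (e m : ℕ))) * I ^ (e n : ℕ)) • w m n‖ ^ 2) =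
    ‖∑ m, w m m‖ ^ 2 + ∑ m, ∑ n, (if m = n then 0 else ‖w m n‖ ^ 2)

def S_C3 : Prop := ∀ (H : Type) [NormedAddCommGroup H] [InnerProductSpace ℂ H]
  (ι : Type) [Fintype ι] [DecidableEq ι] (K : ℕ), 0 < K → ∀ X : ι → Fin K → H,
  av (fun k : ι → Fin K => ‖∑ m, X m (k m)‖ ^ 2) ≤
    ‖∑ m, ((K : ℂ)⁻¹ • ∑ j, X m j)‖ ^ 2 + ∑ m, av (fun j : Fin K => ‖X m j‖ ^ 2)

/-- the folded element `a = ∑ i^{e_m} σ_{k_m T}(C_m)` -/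
def fold {H : Type} [NormedAddCommGroup H] [InnerProductSpace ℂ H] [CompleteSpace H]
    (U : ℝ → H →L[ℂ] H) (T : ℝ) (F : Finset ℤ) (K : ℕ) (C : ℤ → H →L[ℂ] H)
    (e : F → Fin 4) (k : F → Fin K) : H →L[ℂ] H :=
  ∑ m : F, (I ^ (e m : ℕ)) • sgm U (((k m : ℕ) : ℝ) * T) (C m)

/-- the fourth moment -/
def S_C4 : Prop := ∀ (H : Type) [NormedAddCommGroup H] [InnerProductSpace ℂ H] [CompleteSpace H]
  (M : VonNeumannAlgebra H) (ξ : H) (U : ℝ → H →L[ℂ] H), IsModular M ξ U → ‖ξ‖ = 1 →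
  ∀ (T : ℝ) (F : Finset ℤ) (C : ℤ → H →L[ℂ] H),
  (∀ v : H, ∑ m ∈ F, ‖C m v‖ ^ 2 ≤ ‖v‖ ^ 2) →
  (∀ v : H, ∑ m ∈ F, ‖star (C m) (U ((m : ℝ) * T) v)‖ ^ 2 ≤ ‖v‖ ^ 2) →
  ∃ K : ℕ, 0 < K ∧ av (fun k : F → Fin K => av (fun e : F → Fin 4 =>
    ‖(star (fold U T F K C e k) * fold U T F K C e k) ξ‖ ^ 2)) ≤ 4

/-- the commutator with the state -/
def S_C5 : Prop := ∀ (H : Type) [NormedAddCommGroup H] [InnerProductSpace ℂ H] [CompleteSpace H]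
  (M : VonNeumannAlgebra H) (ξ : H) (U : ℝ → H →L[ℂ] H), IsModular M ξ U → ‖ξ‖ = 1 →
  ∀ (T : ℝ) (F : Finset ℤ) (C C1 C2 : ℤ → H →L[ℂ] H) (K : ℕ) (η : ℝ), 0 < K →
  (∀ m, KM M ξ (C m) (C1 m)) → (∀ m, KM M ξ (star (C m)) (C2 m)) →
  ∑ m ∈ F, ‖(C m - C1 m) ξ‖ ^ 2 ≤ η ^ 2 → ∑ m ∈ F, ‖(star (C m) - C2 m) ξ‖ ^ 2 ≤ η ^ 2 →
  av (fun k : F → Fin K => av (fun e : F → Fin 4 => commNorm M ξ (fold U T F K C e k) ^ 2)) ≤ η ^ 2 ∧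
  av (fun k : F → Fin K => av (fun e : F → Fin 4 =>
    commNorm M ξ (star (fold U T F K C e k)) ^ 2)) ≤ η ^ 2

/-- commutators with `x` -/
def S_C6 : Prop := ∀ (H : Type) [NormedAddCommGroup H] [InnerProductSpace ℂ H] [CompleteSpace H]
  (M : VonNeumannAlgebra H) (ξ : H) (U : ℝ → H →L[ℂ] H), IsModular M ξ U →
  ∀ (T : ℝ) (F : Finset ℤ) (C : ℤ → H →L[ℂ] H) (K : ℕ) (x : H →L[ℂ] H), 0 < K →
  (∀ t : ℝ, sgm U t x = x) →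
  av (fun k : F → Fin K => av (fun e : F → Fin 4 =>
    ‖(fold U T F K C e k * x - x * fold U T F K C e k) ξ‖ ^ 2)) =
  ∑ m ∈ F, ‖(C m * x - x * C m) ξ‖ ^ 2

/-- the main estimate -/
def S_C7 : Prop := ∀ (H : Type) [NormedAddCommGroup H] [InnerProductSpace ℂ H] [CompleteSpace H]
  (M N : VonNeumannAlgebra H) (ξ : H) (U : ℝ → H →L[ℂ] H), Std M N ξ U →
  ∀ (T L ε A η : ℝ) (x : H →L[ℂ] H), x ∈ M → (∀ t : ℝ, sgm U t x = x) →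
  0 < L → 0 ≤ ε → 0 ≤ A →
  (∀ a : H →L[ℂ] H, a ∈ N → ‖a‖ ≤ L → ‖(a * x - x * a) ξ‖ ^ 2 ≤ ε + A * commNorm M ξ a ^ 2) →
  ∀ (F : Finset ℤ) (C C1 C2 : ℤ → H →L[ℂ] H), (∀ m, C m ∈ N) →
  (∀ v : H, ∑ m ∈ F, ‖C m v‖ ^ 2 ≤ ‖v‖ ^ 2) →
  (∀ v : H, ∑ m ∈ F, ‖star (C m) (U ((m : ℝ) * T) v)‖ ^ 2 ≤ ‖v‖ ^ 2) →
  (∀ m, KM M ξ (C m) (C1 m)) → (∀ m, KM M ξ (star (C m)) (C2 m)) →
  ∑ m ∈ F, ‖(C m - C1 m) ξ‖ ^ 2 ≤ η ^ 2 → ∑ m ∈ F, ‖(star (C m) - C2 m) ξ‖ ^ 2 ≤ η ^ 2 →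
  ∑ m ∈ F, ‖(C m * x - x * C m) ξ‖ ^ 2 ≤ 2 * ε + 20 * A * η ^ 2 + 8 * ‖x‖ ^ 2 / L ^ 2

/-! ### General operator algebras on `K` -/

/-- relative commutants of corners -/
def S_D1 : Prop := ∀ (K : Type) [NormedAddCommGroup K] [InnerProductSpace ℂ K] [CompleteSpace K]
  (A B : VonNeumannAlgebra K), (∀ x : K →L[ℂ] K, x ∈ A → x ∈ B) →
  (∀ Z : K →L[ℂ] K, Z ∈ B → (∀ S : K →L[ℂ] K, S ∈ A → S * Z = Z * S) → ∃ c : ℂ, Z = c • 1) →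
  ∀ p : K →L[ℂ] K, p ∈ A → p * p = p → star p = p → ∀ Z : K →L[ℂ] K, Z ∈ B → p * Z * p = Z →
  (∀ S : K →L[ℂ] K, S ∈ A → p * S * p = S → S * Z = Z * S) → ∃ c : ℂ, Z = c • p

/-- averaging over the unitaries of the corner -/
def S_D2 : Prop := ∀ (K : Type) [NormedAddCommGroup K] [InnerProductSpace ℂ K] [CompleteSpace K]
  (A B : VonNeumannAlgebra K), (∀ x : K →L[ℂ] K, x ∈ A → x ∈ B) →
  ∀ p : K →L[ℂ] K, p ∈ A → p * p = p → star p = p → ∀ ζ : K, p ζ = ζ →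
  (∀ Z : K →L[ℂ] K, Z ∈ B → p * Z * p = Z → ‖Z ζ‖ = ‖star Z ζ‖) →
  (∀ Z : K →L[ℂ] K, Z ∈ B → p * Z * p = Z → Z ζ = 0 → Z = 0) →
  ∀ (Z : K →L[ℂ] K) (r : ℝ), Z ∈ B → p * Z * p = Z →
  (∀ u : K →L[ℂ] K, u ∈ A → star u * u = p → u * star u = p → ‖(u * Z - Z * u) ζ‖ ≤ r) →
  ∃ Z0 : K →L[ℂ] K, Z0 ∈ B ∧ p * Z0 * p = Z0 ∧ ‖(Z - Z0) ζ‖ ≤ r ∧
    ∀ u : K →L[ℂ] K, u ∈ A → star u * u = p → u * star u = p → u * Z0 = Z0 * u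

/-- unitaries of the corner span the corner -/
def S_D3 : Prop := ∀ (K : Type) [NormedAddCommGroup K] [InnerProductSpace ℂ K] [CompleteSpace K]
  (A : VonNeumannAlgebra K), ∀ p : K →L[ℂ] K, p ∈ A → p * p = p → star p = p →
  ∀ Z : K →L[ℂ] K, p * Z * p = Z →
  (∀ u : K →L[ℂ] K, u ∈ A → star u * u = p → u * star u = p → u * Z = Z * u) →
  ∀ S : K →L[ℂ] K, S ∈ A → p * S * p = S → S * Z = Z * S

/-! ### The abstract theorem -/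

/-- one box -/
def S_F0 : Prop := ∀ (H K : Type) [NormedAddCommGroup H] [InnerProductSpace ℂ H] [CompleteSpace H]
  [NormedAddCommGroup K] [InnerProductSpace ℂ K] [CompleteSpace K]
  (M N : VonNeumannAlgebra H) (ξ : H) (U : ℝ → H →L[ℂ] H), Std M N ξ U →
  ∀ (κ : (H →L[ℂ] H) →⋆ₐ[ℂ] (K →L[ℂ] K)) (V : ℝ → K →L[ℂ] K)
  (A B : VonNeumannAlgebra K), (∀ x : K →L[ℂ] K, x ∈ A → x ∈ B) →
  (∀ Z : K →L[ℂ] K, Z ∈ B → Aff M κ V Z) → (∀ Z : K →L[ℂ] K, Z ∈ A → Aff N κ V Z) →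
  (∀ Z : K →L[ℂ] K, Z ∈ B → (∀ S : K →L[ℂ] K, S ∈ A → S * Z = Z * S) → ∃ c : ℂ, Z = c • 1) →
  ∀ (J : H →L[ℂ] K) (E : ℂ → K →L[ℂ] K) (T δ : ℝ), BoxP U κ V J E T δ → E 0 ∈ A →
  ∀ (x : H →L[ℂ] H) (r : ℝ), x ∈ M → κ x ∈ B → 0 ≤ r →
  (∀ Y : K →L[ℂ] K, Y ∈ A → E 0 * Y * E 0 = Y → ‖Y‖ ≤ 1 →
    ‖(Y * κ x - κ x * Y) (J ξ)‖ ≤ r) →
  ∃ c : ℂ, ‖(x - c • (1 : H →L[ℂ] H)) ξ‖ ≤ 2 * (r + 2 * ‖x‖ * δ)

def S_F1 : Prop := ∀ (H K : Type) [NormedAddCommGroup H] [InnerProductSpace ℂ H] [CompleteSpace H]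
  [NormedAddCommGroup K] [InnerProductSpace ℂ K] [CompleteSpace K]
  (M N : VonNeumannAlgebra H) (ξ : H) (U : ℝ → H →L[ℂ] H), Std M N ξ U →
  ∀ (κ : (H →L[ℂ] H) →⋆ₐ[ℂ] (K →L[ℂ] K)) (V : ℝ → K →L[ℂ] K)
  (A B : VonNeumannAlgebra K), (∀ x : K →L[ℂ] K, x ∈ A → x ∈ B) →
  (∀ Z : K →L[ℂ] K, Z ∈ B → Aff M κ V Z) → (∀ Z : K →L[ℂ] K, Z ∈ A → Aff N κ V Z) →
  (∀ x : H →L[ℂ] H, x ∈ M → (∀ t : ℝ, sgm U t x = x) → κ x ∈ B) →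
  (∀ Z : K →L[ℂ] K, Z ∈ B → (∀ S : K →L[ℂ] K, S ∈ A → S * Z = Z * S) → ∃ c : ℂ, Z = c • 1) →
  (∀ δ : ℝ, 0 < δ → ∃ (J : H →L[ℂ] K) (E : ℂ → K →L[ℂ] K) (T : ℝ) (δ' : ℝ), δ' ≤ δ ∧
    BoxP U κ V J E T δ' ∧ E 0 ∈ A) →
  ∀ x : H →L[ℂ] H, x ∈ relBicentralizer N M ξ → (∀ t : ℝ, sgm U t x = x) →
    ∃ c : ℂ, x = c • (1 : H →L[ℂ] H)

/-! ### The concrete box on `L²(ℝ; H)` -/

def IsMulOp {H : Type} [NormedAddCommGroup H] [InnerProductSpace ℂ H] [CompleteSpace H]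
    (g : ℝ → ℂ) (S : LR H →L[ℂ] LR H) : Prop :=
  ∀ f : LR H, (S f : ℝ → H) =ᵐ[volume] fun s => g s • f s

def IsConst {H : Type} [NormedAddCommGroup H] [InnerProductSpace ℂ H] [CompleteSpace H]
    (y : H →L[ℂ] H) (S : LR H →L[ℂ] LR H) : Prop :=
  ∀ f : LR H, (S f : ℝ → H) =ᵐ[volume] fun s => y (f s)

def IsShift {H : Type} [NormedAddCommGroup H] [InnerProductSpace ℂ H] [CompleteSpace H]
    (t : ℝ) (S : LR H →L[ℂ] LR H) : Prop :=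
  ∀ f : LR H, (S f : ℝ → H) =ᵐ[volume] fun s => f (s - t)

def S_E1 : Prop := ∀ (H : Type) [NormedAddCommGroup H] [InnerProductSpace ℂ H] [CompleteSpace H],
  ∃ κ : (H →L[ℂ] H) →⋆ₐ[ℂ] (LR H →L[ℂ] LR H), ∀ y : H →L[ℂ] H, IsConst y (κ y)

def S_E2 : Prop := ∀ (H : Type) [NormedAddCommGroup H] [InnerProductSpace ℂ H] [CompleteSpace H]
  (g : ℝ → ℂ) (C : ℝ), Measurable g → (∀ s, ‖g s‖ ≤ C) →
  ∃ S : LR H →L[ℂ] LR H, IsMulOp g S ∧ ‖S‖ ≤ C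

/-- adjoints and products of multiplication operators, commutation with constants -/
def S_E2b : Prop := ∀ (H : Type) [NormedAddCommGroup H] [InnerProductSpace ℂ H] [CompleteSpace H],
  (∀ (g : ℝ → ℂ) (S S' : LR H →L[ℂ] LR H), IsMulOp g S → IsMulOp g S' → S = S') ∧
  (∀ (g : ℝ → ℂ) (S S' : LR H →L[ℂ] LR H), IsMulOp g S →
    IsMulOp (fun s => starRingEnd ℂ (g s)) S' → star S = S') ∧
  (∀ (g h : ℝ → ℂ) (S S' : LR H →L[ℂ] LR H), IsMulOp g S → IsMulOp h S' →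
    IsMulOp (fun s => g s * h s) (S * S')) ∧
  (∀ (g : ℝ → ℂ) (y : H →L[ℂ] H) (S S' : LR H →L[ℂ] LR H), IsMulOp g S → IsConst y S' →
    S * S' = S' * S)

def S_E3 : Prop := ∀ (H : Type) [NormedAddCommGroup H] [InnerProductSpace ℂ H] [CompleteSpace H],
  ∃ R : ℝ → LR H →L[ℂ] LR H, (∀ t, IsShift t (R t)) ∧ R 0 = 1 ∧ (∀ s t, R (s + t) = R s * R t) ∧
    (∀ t, star (R t) = R (-t)) ∧
    ∀ (t : ℝ) (y : H →L[ℂ] H) (S : LR H →L[ℂ] LR H), IsConst y S → R t * S = S * R t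

/-- the multiplications `e^{2πizw}` on `[0,W]` form a differentiable family -/
def S_E4 : Prop := ∀ (H : Type) [NormedAddCommGroup H] [InnerProductSpace ℂ H] [CompleteSpace H]
  (W : ℝ), 0 < W → ∃ E : ℂ → LR H →L[ℂ] LR H,
  (∀ z : ℂ, IsMulOp (fun w : ℝ => Set.indicator (Set.Icc 0 W)
    (fun w : ℝ => Complex.exp (2 * Real.pi * I * z * w)) w) (E z)) ∧ Differentiable ℂ E ∧
  ∀ z : ℂ, ‖E z - E 0‖ ≤ Real.exp (2 * Real.pi * ‖z‖ * W) - 1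

/-- the isometry `J` -/
def S_E5 : Prop := ∀ (H : Type) [NormedAddCommGroup H] [InnerProductSpace ℂ H] [CompleteSpace H]
  (W : ℝ), 0 < W → ∃ J : H →L[ℂ] LR H,
  (∀ v : H, (J v : ℝ → H) =ᵐ[volume] fun w => Set.indicator (Set.Icc 0 W)
    (fun _ => (((Real.sqrt W)⁻¹ : ℝ) : ℂ) • v) w) ∧
  (∀ v : H, ContinuousLinearMap.adjoint J (J v) = v) ∧
  ∀ f : LR H, ContinuousLinearMap.adjoint J f =
    (((Real.sqrt W)⁻¹ : ℝ) : ℂ) • ∫ w in Set.Icc 0 W, f w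

/-- orthogonality and completeness -/
def S_E6 : Prop := ∀ (H : Type) [NormedAddCommGroup H] [InnerProductSpace ℂ H] [CompleteSpace H]
  (W : ℝ), 0 < W → ∀ (E : ℂ → LR H →L[ℂ] LR H) (J : H →L[ℂ] LR H),
  (∀ z : ℂ, IsMulOp (fun w : ℝ => Set.indicator (Set.Icc 0 W)
    (fun w : ℝ => Complex.exp (2 * Real.pi * I * z * w)) w) (E z)) →
  (∀ v : H, (J v : ℝ → H) =ᵐ[volume] fun w => Set.indicator (Set.Icc 0 W)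
    (fun _ => (((Real.sqrt W)⁻¹ : ℝ) : ℂ) • v) w) →
  (∀ v : H, ContinuousLinearMap.adjoint J (J v) = v) →
  (∀ f : LR H, ContinuousLinearMap.adjoint J f =
    (((Real.sqrt W)⁻¹ : ℝ) : ℂ) • ∫ w in Set.Icc 0 W, f w) →
  (∀ (m : ℤ) (v : H), m ≠ 0 →
    ContinuousLinearMap.adjoint J (E (((m : ℝ) * (1 / W) : ℝ) : ℂ) (J v)) = 0) ∧
  ∀ u : LR H, HasSum (fun m : ℤ => E (((m : ℝ) * (1 / W) : ℝ) : ℂ)
    (J (ContinuousLinearMap.adjoint J (E ((-((m : ℝ) * (1 / W)) : ℝ) : ℂ) u)))) (E 0 u)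

/-- the box in the Fourier picture -/
def S_E7 : Prop := ∀ (H : Type) [NormedAddCommGroup H] [InnerProductSpace ℂ H] [CompleteSpace H]
  (M : VonNeumannAlgebra H) (ξ : H) (U : ℝ → H →L[ℂ] H), IsModular M ξ U →
  ∀ κ : (H →L[ℂ] H) →⋆ₐ[ℂ] (LR H →L[ℂ] LR H), (∀ y : H →L[ℂ] H, IsConst y (κ y)) →
  ∃ e : ℝ → LR H →L[ℂ] LR H,
    (∀ t : ℝ, IsMulOp (fun w : ℝ => Complex.exp (2 * Real.pi * I * t * w)) (e t)) ∧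
    ∀ δ : ℝ, 0 < δ → ∃ (J : H →L[ℂ] LR H) (E : ℂ → LR H →L[ℂ] LR H) (T : ℝ) (δ' W : ℝ), δ' ≤ δ ∧
      BoxP U κ (fun t => e t * κ (U t)) J E T δ' ∧ 0 < W ∧
      IsMulOp (Set.indicator (Set.Icc 0 W) (fun _ => (1 : ℂ))) (E 0)

/-- boxes can be transported by unitaries -/
def S_E8 : Prop := ∀ (H K L : Type) [NormedAddCommGroup H] [InnerProductSpace ℂ H] [CompleteSpace H]
  [NormedAddCommGroup K] [InnerProductSpace ℂ K] [CompleteSpace K]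
  [NormedAddCommGroup L] [InnerProductSpace ℂ L] [CompleteSpace L]
  (U : ℝ → H →L[ℂ] H) (κ : (H →L[ℂ] H) →⋆ₐ[ℂ] (K →L[ℂ] K)) (V : ℝ → K →L[ℂ] K)
  (J : H →L[ℂ] K) (E : ℂ → K →L[ℂ] K) (T δ : ℝ), BoxP U κ V J E T δ →
  ∀ (κ' : (H →L[ℂ] H) →⋆ₐ[ℂ] (L →L[ℂ] L)) (V' : ℝ → L →L[ℂ] L) (Φ : L ≃ₗᵢ[ℂ] K),
  (∀ (y : H →L[ℂ] H) (f : L), Φ (κ' y f) = κ y (Φ f)) →
  (∀ (t : ℝ) (f : L), Φ (V' t f) = V t (Φ f)) →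
  ∃ (J' : H →L[ℂ] L) (E' : ℂ → L →L[ℂ] L), (∀ (z : ℂ) (f : L), Φ (E' z f) = E z (Φ f)) ∧
    BoxP U κ' V' J' E' T δ

/-- the Fourier transform on `L²(ℝ; H)` -/
def S_E9 : Prop := ∀ (H : Type) [NormedAddCommGroup H] [InnerProductSpace ℂ H] [CompleteSpace H],
  ∃ Φ : LR H ≃ₗᵢ[ℂ] LR H,
  (∀ (y : H →L[ℂ] H) (S : LR H →L[ℂ] LR H), IsConst y S → ∀ f : LR H, Φ (S f) = S (Φ f)) ∧
  ∀ (t : ℝ) (S S' : LR H →L[ℂ] LR H), IsShift t S →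
    IsMulOp (fun w : ℝ => Complex.exp (2 * Real.pi * I * (-t : ℝ) * w)) S' →
    ∀ f : LR H, Φ (S f) = S' (Φ f)

/-- an operator commuting with all characters commutes with the indicators of intervals -/
def S_E10 : Prop := ∀ (H : Type) [NormedAddCommGroup H] [InnerProductSpace ℂ H] [CompleteSpace H]
  (e : ℝ → LR H →L[ℂ] LR H),
  (∀ t : ℝ, IsMulOp (fun w : ℝ => Complex.exp (2 * Real.pi * I * t * w)) (e t)) →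
  ∀ X : LR H →L[ℂ] LR H, (∀ t : ℝ, X * e t = e t * X) →
  ∀ (W : ℝ) (S : LR H →L[ℂ] LR H), 0 < W →
    IsMulOp (Set.indicator (Set.Icc 0 W) (fun _ => (1 : ℂ))) S → X * S = S * X

/-- the core is contained in the commutant of `M' ⊗ 1` and `U_t ⊗ ρ_t` -/
def S_E11 : Prop := ∀ (H : Type) [NormedAddCommGroup H] [InnerProductSpace ℂ H] [CompleteSpace H]
  (M N : VonNeumannAlgebra H) (ξ : H) (U : ℝ → H →L[ℂ] H), IsModular M ξ U →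
  (∀ x : H →L[ℂ] H, x ∈ N → x ∈ M) → (∀ (t : ℝ) (x : H →L[ℂ] H), x ∈ N → sgm U t x ∈ N) →
  ∀ κ : (H →L[ℂ] H) →⋆ₐ[ℂ] (LR H →L[ℂ] LR H), (∀ y : H →L[ℂ] H, IsConst y (κ y)) →
  ∀ R : ℝ → LR H →L[ℂ] LR H, (∀ t, IsShift t (R t)) → R 0 = 1 → (∀ s t, R (s + t) = R s * R t) →
  (∀ t, star (R t) = R (-t)) →
  ∀ Z : LR H →L[ℂ] LR H, Z ∈ core N U → Aff N κ (fun t => R (-t) * κ (U t)) Z

end

end Pool.Agent.W662.CB
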