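import Pool.Agent.W662.CB.Fin
import Pool.Agent.W557.CB.A1
import Pool.Agent.W303.CB.A2
import Pool.Agent.W418.CB.A3
import Pool.Agent.W486.CB.A4
import Pool.Agent.W391.CB.A5
import Pool.Agent.W638.CB.A6
import Pool.Agent.W584.CB.A7
import Pool.Agent.W883.CB.A8a
import Pool.Agent.W766.CB.A8b
import Pool.Agent.W797.CB.A8c
import Pool.Agent.W315.CB.A8
import Pool.Agent.W398.CB.B1
import Pool.Agent.W366.CB.B2
import Pool.Agent.W110.CB.B3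
import Pool.Agent.W922.CB.B4
import Pool.Agent.W212.CB.B5
import Pool.Agent.W509.CB.B6
import Pool.Agent.W382.CB.B7
import Pool.Agent.W681.CB.B8
import Pool.Agent.W300.CB.B9
import Pool.Agent.W28.CB.C13
import Pool.Agent.W371.CB.C2
import Pool.Agent.W561.CB.C4
import Pool.Agent.W284.CB.C5C6
import Pool.Agent.W371.CB.C7
import Pool.Agent.W977.CB.D1
import Pool.Agent.W917.CB.D2
import Pool.Agent.W672.CB.D3
import Pool.Agent.W428.CB.F0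
import Pool.Agent.W158.CB.F1
import Pool.Agent.W132.CB.E1
import Pool.Agent.W227.CB.E2
import Pool.Agent.W509.CB.E3
import Pool.Agent.W685.CB.E4
import Pool.Agent.W554.CB.E5
import Pool.Agent.W821.CB.E6
import Pool.Agent.W919.CB.E7
import Pool.Agent.W672.CB.E8
import Pool.Agent.W509.CB.E9
import Pool.Agent.W748.CB.E10
import Pool.Agent.W850.CB.E11
import Pool.Agent.W376.CB.Fin0

set_option autoImplicit false

namespace Pool.Agent.W662.CB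

theorem pA1 : S_A1 := Pool.Agent.W557.CB.a1
theorem pA2a : S_A2a := Pool.Agent.W303.CB.a2a
theorem pA2 : S_A2 := Pool.Agent.W303.CB.a2 pA1 pA2a
theorem pA3 : S_A3 := Pool.Agent.W418.CB.A3.a3 pA2
theorem pA4 : S_A4 := Pool.Agent.W486.CB.a4 pA3
theorem pA5 : S_A5 := Pool.Agent.W391.CB.a5
theorem pA6 : S_A6 := Pool.Agent.W638.CB.a6 pA5
theorem pA7 : S_A7 := Pool.Agent.W584.CB.a7 pA5
theorem pA8a : S_A8a := Pool.Agent.W883.CB.a8a
theorem pA8b : S_A8b := Pool.Agent.W766.CB.a8b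
theorem pA8c : S_A8c := Pool.Agent.W797.CB.a8c pA2
theorem pA8 : S_A8 := Pool.Agent.W315.CB.a8 pA8a pA8b pA8c
theorem pB1 : S_B1 := Pool.Agent.W398.CB.B1.b1
theorem pB2 : S_B2 := Pool.Agent.W366.CB.B2.b2
theorem pB3 : S_B3 := Pool.Agent.W110.CB.B3.b3 pB1 pB2 pA2
theorem pB4 : S_B4 := Pool.Agent.W922.CB.b4 pB1
theorem pB5 : S_B5 := Pool.Agent.W212.CB.b5 pB1 pB2 pB3 pB4
theorem pB6 : S_B6 := Pool.Agent.W509.CB.b6 pB1 pB2
theorem pB7 : S_B7 := Pool.Agent.W382.CB.b7 pB1 pB2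
theorem pB8 : S_B8 := Pool.Agent.W681.CB.b8 pB1 pB2 pB3
theorem pB9 : S_B9 := Pool.Agent.W300.CB.b9
theorem pC1 : S_C1 := Pool.Agent.W28.CB.c1
theorem pC2 : S_C2 := Pool.Agent.W371.CB.c2
theorem pC3 : S_C3 := Pool.Agent.W28.CB.c3
theorem pC4 : S_C4 := Pool.Agent.W561.CB.c4 pC2 pC3
theorem pC5 : S_C5 := Pool.Agent.W284.CB.c5 pC1 pA5
theorem pC6 : S_C6 := Pool.Agent.W284.CB.c6 pC1
theorem pC7 : S_C7 := Pool.Agent.W371.CB.c7 pC4 pC5 pC6 pA4 pA5 pA6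
theorem pD1 : S_D1 := Pool.Agent.W977.CB.D1.d1
theorem pD2 : S_D2 := Pool.Agent.W917.CB.D2.d2
theorem pD3 : S_D3 := Pool.Agent.W672.CB.D.d3
theorem pF0 : S_F0 := Pool.Agent.W428.CB.F0.f0 pB1 pB2 pB5 pB6 pD1 pD2 pD3
theorem pF1 : S_F1 := Pool.Agent.W158.CB.f1 pF0 pB7 pB8 pB9 pA7 pC7
theorem pE1 : S_E1 := Pool.Agent.W132.CB.e1
theorem pE2 : S_E2 := Pool.Agent.W227.CB.e2
theorem pE2b : S_E2b := Pool.Agent.W227.CB.e2b
theorem pE3 : S_E3 := Pool.Agent.W509.CB.e3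
theorem pE4 : S_E4 := Pool.Agent.W685.CB.E4.e4 pE2 pE2b
theorem pE5 : S_E5 := Pool.Agent.W554.CB.e5
theorem pE6 : S_E6 := Pool.Agent.W821.CB.e6
theorem pE7 : S_E7 := Pool.Agent.W919.CB.e7 pE2 pE2b pE4 pE5 pE6
theorem pE8 : S_E8 := Pool.Agent.W672.CB.e8
theorem pE9 : S_E9 := Pool.Agent.W509.CB.e9
theorem pE10 : S_E10 := Pool.Agent.W748.CB.e10 pE2 pE2b
theorem pE11 : S_E11 := Pool.Agent.W850.CB.e11
theorem pFin0 : S_FIN0 := by
  intro H _ _ _ N U R hR Φ hΦ W P P' hW hP hP'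
  exact Pool.Agent.W376.CB.fin0 pE2 pE2b pE10 H N U R hR Φ hΦ W hW P P' hP hP'

theorem all : S_MAIN := main pA8 pF1 pE1 pE3 pE7 pE8 pE9 pE11 pFin0

end Pool.Agent.W662.CB
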