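import Pool.Agent.W662.CB.Fdefs

set_option autoImplicit false

open MeasureTheory Filter Topology Complex
open scoped InnerProductSpace ENNReal

namespace Pool.Agent.W662.CB

noncomputable section

/-- `B(N ⊂ M, φ)^σ`: the elements of the relative bicentralizer fixed by the modular group. -/
def fixBic {H : Type} [NormedAddCommGroup H] [InnerProductSpace ℂ H] [CompleteSpace H]
    (N M : VonNeumannAlgebra H) (ξ : H) (U : ℝ → H →L[ℂ] H) : Set (H →L[ℂ] H) :=
  {x | x ∈ relBicentralizer N M ξ ∧ ∀ t : ℝ, sgm U t x = x}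

/-- The relative commutant `A' ∩ B`. -/
def relComm {K : Type} [NormedAddCommGroup K] [InnerProductSpace ℂ K] [CompleteSpace K]
    (A B : Set (K →L[ℂ] K)) : Set (K →L[ℂ] K) :=
  {T | T ∈ B ∧ ∀ S : K →L[ℂ] K, S ∈ A → S * T = T * S}

/-- `π` is an injective unital `*`-homomorphism of the set `P` of operators into the set `Q`
(all identities are required for elements of `P` only). -/
def IsEmb {H K : Type} [NormedAddCommGroup H] [InnerProductSpace ℂ H] [CompleteSpace H]
    [NormedAddCommGroup K] [InnerProductSpace ℂ K] [CompleteSpace K]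
    (P : Set (H →L[ℂ] H)) (Q : Set (K →L[ℂ] K)) (π : (H →L[ℂ] H) → (K →L[ℂ] K)) : Prop :=
  π 1 = 1 ∧ ∀ x : H →L[ℂ] H, x ∈ P → π x ∈ Q ∧ (π x = 0 → x = 0) ∧ π (star x) = star (π x) ∧
    (∀ c : ℂ, π (c • x) = c • π x) ∧
    ∀ y : H →L[ℂ] H, y ∈ P → π (x + y) = π x + π y ∧ π (x * y) = π x * π y

end

end Pool.Agent.W662.CB
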