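import Pool.Agent.W662.CB.Stmts

set_option autoImplicit false

open MeasureTheory Filter Topology Complex
open scoped InnerProductSpace ENNReal

namespace Pool.Agent.W662.CB

noncomputable section

/-- the projection onto `[0,W]` (Fourier side) belongs to the core -/
def S_FIN0 : Prop := ∀ (H : Type) [NormedAddCommGroup H] [InnerProductSpace ℂ H] [CompleteSpace H]
  (N : VonNeumannAlgebra H) (U : ℝ → H →L[ℂ] H) (R : ℝ → LR H →L[ℂ] LR H),
  (∀ t, IsShift t (R t)) → ∀ Φ : LR H ≃ₗᵢ[ℂ] LR H,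
  (∀ (t : ℝ) (S S' : LR H →L[ℂ] LR H), IsShift t S →
    IsMulOp (fun w : ℝ => Complex.exp (2 * Real.pi * I * (-t : ℝ) * w)) S' →
    ∀ f : LR H, Φ (S f) = S' (Φ f)) →
  ∀ (W : ℝ) (P P' : LR H →L[ℂ] LR H), 0 < W →
  IsMulOp (Set.indicator (Set.Icc 0 W) (fun _ => (1 : ℂ))) P →
  (∀ f : LR H, Φ (P' f) = P (Φ f)) → P' ∈ core N U

/-- The theorem. -/
def S_MAIN : Prop := ∀ (H : Type) [NormedAddCommGroup H] [InnerProductSpace ℂ H] [CompleteSpace H]
  (M N : VonNeumannAlgebra H) (ξ : H) (U : ℝ → H →L[ℂ] H) (E : (H →L[ℂ] H) → (H →L[ℂ] H)),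
  (∀ x : H →L[ℂ] H, x ∈ N → x ∈ M) → ‖ξ‖ = 1 → IsCyclic M ξ → IsSeparating M ξ →
  IsModular M ξ U → IsCondExp M N E → (∀ x : H →L[ℂ] H, x ∈ M → vst ξ (E x) = vst ξ x) →
  CoreIrreducible N M U →
  ∀ x : H →L[ℂ] H, x ∈ relBicentralizer N M ξ → (∀ t : ℝ, sgm U t x = x) →
    ∃ c : ℂ, x = c • (1 : H →L[ℂ] H)

theorem main (hA8 : S_A8) (hF1 : S_F1) (hE1 : S_E1) (hE3 : S_E3) (hE7 : S_E7) (hE8 : S_E8)
    (hE9 : S_E9) (hE11 : S_E11) (hfin : S_FIN0) : S_MAIN := by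
  intro H _ _ _ M N ξ U E hNM hξ hcyc hsep hU hE hφ hirr x hx hxU
  have hinv := hA8 H M N ξ U E hNM hcyc hsep hU hE hφ
  have hstd : Std M N ξ U := ⟨hNM, hξ, hsep, hU, hinv⟩
  obtain ⟨κ, hκ⟩ := hE1 H
  obtain ⟨R, hR, hR0, hRadd, hRstar, hRc⟩ := hE3 H
  obtain ⟨Φ, hΦc, hΦs⟩ := hE9 H
  obtain ⟨e, he, hbox⟩ := hE7 H M ξ U hU κ hκ
  have hle : ∀ Z : LR H →L[ℂ] LR H, Z ∈ core N U → Z ∈ core M U := by
    have hsub : coreGen N U ⊆ coreGen M U := by
      rintro T (⟨y, hy, hT⟩ | ⟨t, hT⟩)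
      · exact Or.inl ⟨y, hNM y hy, hT⟩
      · exact Or.inr ⟨t, hT⟩
    intro Z hZ
    have h1 : Z ∈ StarSubalgebra.centralizer ℂ
        ((StarSubalgebra.centralizer ℂ (coreGen N U) : Set (LR H →L[ℂ] LR H))) := hZ
    have h2 : Z ∈ StarSubalgebra.centralizer ℂ
        ((StarSubalgebra.centralizer ℂ (coreGen M U) : Set (LR H →L[ℂ] LR H))) := by
      rw [StarSubalgebra.mem_centralizer_iff] at h1 ⊢
      intro g hg
      refine h1 g ?_
      have hg' : g ∈ StarSubalgebra.centralizer ℂ (coreGen M U) := hg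
      show g ∈ StarSubalgebra.centralizer ℂ (coreGen N U)
      rw [StarSubalgebra.mem_centralizer_iff] at hg' ⊢
      exact fun y hy => hg' y (hsub hy)
    exact h2
  refine hF1 H (LR H) M N ξ U hstd κ (fun t => R (-t) * κ (U t)) (core N U) (core M U) hle
    ?_ ?_ ?_ ?_ ?_ x hx hxU
  · intro Z hZ
    exact hE11 H M M ξ U hU (fun y hy => hy) hU.mem κ hκ R hR hR0 hRadd hRstar Z hZ
  · intro Z hZ
    exact hE11 H M N ξ U hU hNM hinv κ hκ R hR hR0 hRadd hRstar Z hZ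
  · intro y hy hyU
    have hgen : κ y ∈ coreGen M U := by
      refine Or.inl ⟨y, hy, fun f => ?_⟩
      simp only [hyU]
      exact hκ y f
    have h2 : κ y ∈ StarSubalgebra.centralizer ℂ
        ((StarSubalgebra.centralizer ℂ (coreGen M U) : Set (LR H →L[ℂ] LR H))) := by
      rw [StarSubalgebra.mem_centralizer_iff]
      intro g hg
      have hg' : g ∈ StarSubalgebra.centralizer ℂ (coreGen M U) := hg
      rw [StarSubalgebra.mem_centralizer_iff] at hg'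
      have h3 := hg' (κ y) hgen
      refine ⟨h3.1.symm, ?_⟩
      have h4 := congrArg star h3.2
      simp only [star_mul, star_star] at h4
      exact h4
    exact h2
  · exact hirr
  · intro δ hδ
    obtain ⟨J, E0, T, δ', W, hδ', hB, hW, hE0⟩ := hbox δ hδ
    obtain ⟨J', E', hE', hB'⟩ := hE8 H (LR H) (LR H) U κ (fun t => e t * κ (U t)) J E0 T δ' hB κ
      (fun t => R (-t) * κ (U t)) Φ (fun y f => hΦc y (κ y) (hκ y) f) (by
        intro t f
        have h5 := hΦs (-t) (R (-t)) (e t) (hR (-t)) (by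
          have h6 := he t
          simpa using h6) (κ (U t) f)
        show Φ (R (-t) (κ (U t) f)) = e t (κ (U t) (Φ f))
        rw [h5, hΦc (U t) (κ (U t)) (hκ (U t)) f])
    exact ⟨J', E', T, δ', hδ', hB', hfin H N U R hR Φ hΦs W (E0 0) (E' 0) hW hE0 (hE' 0)⟩

end

end Pool.Agent.W662.CB
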