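import Pool.Agent.W662.CB.All
import Pool.Agent.W662.CB.Fin2
import Pool.Agent.W662.CB.Fdefs2
import Pool.Agent.W298.CB2.Q1
import Pool.Agent.W373.CB2.Q2
import Pool.Agent.W816.CB2.Q3
import Pool.Agent.W505.CB2.Q4
import Pool.Agent.W417.CB2.Q5
import Pool.Agent.W52.CB2.Q6
import Pool.Agent.W52.CB2.Q7
import Pool.Agent.W751.CB2.Q8
import Pool.Agent.W532.CB2.Q9
import Pool.Agent.W853.CB2.Q10F

set_option autoImplicit false

open MeasureTheory Filter Topology Complex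
open scoped InnerProductSpace ENNReal

namespace Pool.Agent.W662.CB

theorem final (H : Type) [NormedAddCommGroup H] [InnerProductSpace ℂ H] [CompleteSpace H]
    (M N : VonNeumannAlgebra H) (ξ : H) (U : ℝ → H →L[ℂ] H) (E : (H →L[ℂ] H) → (H →L[ℂ] H))
    (hNM : ∀ x : H →L[ℂ] H, x ∈ N → x ∈ M) (hξ : ‖ξ‖ = 1)
    (hcyc : IsCyclic M ξ) (hsep : IsSeparating M ξ) (hU : IsModular M ξ U)
    (hE : IsCondExp M N E) (hφ : ∀ x : H →L[ℂ] H, x ∈ M → vst ξ (E x) = vst ξ x)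
    (hfac : IrrIn (dcomm (coreGens (fun f : Lp H 2 (volume : Measure ℝ) => (f : ℝ → H)) N U))
      (dcomm (coreGens (fun f : Lp H 2 (volume : Measure ℝ) => (f : ℝ → H)) N U))) :
    ∃ π : (H →L[ℂ] H) →
      (Lp H 2 (volume : Measure ℝ) →L[ℂ] Lp H 2 (volume : Measure ℝ)),
      IsEmb (fixBic N M ξ U)
        (relComm (dcomm (coreGens (fun f : Lp H 2 (volume : Measure ℝ) => (f : ℝ → H)) N U))
          (dcomm (coreGens (fun f : Lp H 2 (volume : Measure ℝ) => (f : ℝ → H)) M U))) π := by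
  have hinv := pA8 H M N ξ U E hNM hcyc hsep hU hE hφ
  have hstd : Std M N ξ U := ⟨hNM, hξ, hsep, hU, hinv⟩
  have e : ∀ P : VonNeumannAlgebra H, coreGen P U =
      coreGens (fun f : Lp H 2 (volume : Measure ℝ) => (f : ℝ → H)) P U := fun P => rfl
  have e2 : ∀ (P : VonNeumannAlgebra H) (Z : LR H →L[ℂ] LR H), Z ∈ core P U ↔
      Z ∈ dcomm (coreGens (fun f : Lp H 2 (volume : Measure ℝ) => (f : ℝ → H)) P U) := by
    intro P Z
    rw [← e]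
    exact mem_vnGen_iff _ _
  have hf : IsFac (core N U) := by
    intro Z hZ hc
    exact hfac Z ((e2 N Z).1 hZ) fun S hS => hc S ((e2 N S).2 hS)
  have hQ2 := Pool.Agent.W373.CB2.q2
  have hQ1 := Pool.Agent.W298.CB2.Q1.q1
  have hQ10 := Pool.Agent.W853.CB2.q10 hQ1 hQ2
  have hQ3 := Pool.Agent.W816.CB2.Q3.q3 hQ2
  obtain ⟨κ, V, J, E', T, δ, hD⟩ := dat pE1 pE2 pE2b pE3 pE11 pFin0 Pool.Agent.W52.CB2.q6
    Pool.Agent.W52.CB2.q7 Pool.Agent.W751.CB2.q8 Pool.Agent.W532.CB2.q9 H M N ξ U hstd hf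
  obtain ⟨π, h1, h2, h3⟩ := abs_main pB5 pB6 hQ3 Pool.Agent.W505.CB2.q4
    Pool.Agent.W417.CB2.q5 hQ10 hD
  refine ⟨π, h3, ?_⟩
  rintro x ⟨hx, hxU⟩
  obtain ⟨a1, a2, a3, a4, a5⟩ := h1 x hx hxU
  refine ⟨⟨(e2 M _).1 a1.1, fun S hS => a1.2 S ((e2 N S).2 hS)⟩, a3, a4, a5, ?_⟩
  rintro y ⟨hy, hyU⟩
  exact h2 x y hx hxU hy hyU

end Pool.Agent.W662.CB
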